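import Mathlib

namespace Pool.Agent.Results.MP_d302e1_nt.Counter

/-- Formulas built from copies of one constant with binary + and ×. -/
inductive Expr : Type
  | lit : Expr
  | add : Expr → Expr → Expr
  | mul : Expr → Expr → Expr

/-- Value of the formula when the constant is l. -/
def eval (l : ℕ) : Expr → ℕ
  | .lit => l
  | .add a b => eval l a + eval l b
  | .mul a b => eval l a * eval l b

/-- Number of copies of the constant. -/
def size : Expr → ℕ
  | .lit => 1
  | .add a b => size a + size b
  | .mul a b => size a + size b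

/-- The l-complexity of n: least size of an l-expression with value n. -/
noncomputable def cplx (l n : ℕ) : ℕ := sInf {s | ∃ e : Expr, eval l e = n ∧ size e = s}

/-- Number of literal summands of the outermost sum, reading + as associative. -/
def lits : Expr → ℕ
  | .lit => 1
  | .add a b => lits a + lits b
  | .mul _ _ => 0

/-- No sum occurring in the formula has four or more literal summands. -/
def Reduced : Expr → Prop
  | .lit => True
  | .add a b => lits a + lits b ≤ 3 ∧ Reduced a ∧ Reduced b
  | .mul a b => Reduced a ∧ Reduced b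

lemma size_pos (e : Expr) : 1 ≤ size e := by
  induction e <;> simp only [size] <;> omega

/-- auxiliary bound -/
def M : ℕ → ℕ
  | 5 => 6
  | 6 => 9
  | n => n

lemma bound (e : Expr) (h : size e ≤ 6) : eval 1 e ≤ M (size e) := by
  induction e with
  | lit => simp [eval, size, M]
  | add a b iha ihb =>
    simp only [size, eval] at h ⊢
    have ha := size_pos a
    have hb := size_pos b
    have h1 := iha (by omega)
    have h2 := ihb (by omega)
    have : ∀ s ≤ 6, ∀ t ≤ 6, 1 ≤ s → 1 ≤ t → s + t ≤ 6 → M s + M t ≤ M (s + t) := by decide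
    exact (Nat.add_le_add h1 h2).trans (this _ (by omega) _ (by omega) ha hb h)
  | mul a b iha ihb =>
    simp only [size, eval] at h ⊢
    have ha := size_pos a
    have hb := size_pos b
    have h1 := iha (by omega)
    have h2 := ihb (by omega)
    have : ∀ s ≤ 6, ∀ t ≤ 6, 1 ≤ s → 1 ≤ t → s + t ≤ 6 → M s * M t ≤ M (s + t) := by decide
    exact (Nat.mul_le_mul h1 h2).trans (this _ (by omega) _ (by omega) ha hb h)

lemma eleven (e : Expr) (h : eval 1 e = 11) : 8 ≤ size e := by
  by_contra hlt
  have hM : ∀ s ≤ 6, M s ≤ 9 := by decide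
  cases e with
  | lit => simp [eval] at h
  | add a b =>
    simp only [size, eval] at h hlt
    have ha := size_pos a
    have hb := size_pos b
    have h1 := bound a (by omega)
    have h2 := bound b (by omega)
    have : ∀ s ≤ 6, ∀ t ≤ 6, 1 ≤ s → 1 ≤ t → s + t ≤ 7 → M s + M t ≤ 10 := by decide
    have := this (size a) (by omega) (size b) (by omega) ha hb (by omega)
    omega
  | mul a b =>
    simp only [size, eval] at h hlt
    have ha := size_pos a
    have hb := size_pos b
    have h1 := (bound a (by omega)).trans (hM _ (by omega))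
    have h2 := (bound b (by omega)).trans (hM _ (by omega))
    have : ∀ x ≤ 9, ∀ y ≤ 9, x * y ≠ 11 := by decide
    exact this _ h1 _ h2 h

theorem result :
    ∃ (n : ℕ) (R : Expr), 0 < n ∧ eval 1 R = n ∧ size R = cplx 1 n ∧ Reduced R ∧
      cplx 2 (eval 2 R) < cplx 1 n := by
  let three : Expr := .add .lit (.add .lit .lit)
  let R : Expr := .add .lit (.add .lit (.mul three three))
  have h8 : cplx 1 11 = 8 := by
    apply le_antisymm
    · exact Nat.sInf_le ⟨R, rfl, rfl⟩
    · refine le_csInf ⟨8, R, rfl, rfl⟩ ?_
      rintro s ⟨e, he, rfl⟩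
      exact eleven e he
  refine ⟨11, R, by norm_num, rfl, by rw [h8]; rfl, by simp [R, three, Reduced, lits], ?_⟩
  rw [h8]
  refine lt_of_le_of_lt (Nat.sInf_le ⟨.mul .lit (.mul .lit (.add .lit
    (.mul .lit (.mul .lit .lit)))), rfl, rfl⟩) (by decide)

end Pool.Agent.Results.MP_d302e1_nt.Counter
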